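import Mathlib

/-!
The Leavitt path algebra of a finite quiver with vertex type `V`, arrow type `E` and source and
range maps `s r : E → V`.  The Kronecker square of `(V, E, s, r)` is
`(V × V, E × E, Prod.map s s, Prod.map r r)`.
-/

set_option autoImplicit false

namespace Pool.Agent.P.MP_40e4cd_al

universe u

variable (K : Type u) [Field K] {V E : Type}

/-- The generator of the free algebra attached to a vertex `v`. -/
def vtx (E : Type) (v : V) : FreeAlgebra K (V ⊕ E ⊕ E) := FreeAlgebra.ι K (Sum.inl v)

/-- The generator of the free algebra attached to an arrow `e`. -/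
def arr (V : Type) (e : E) : FreeAlgebra K (V ⊕ E ⊕ E) := FreeAlgebra.ι K (Sum.inr (Sum.inl e))

/-- The generator `e*` of the free algebra (ghost arrow). -/
def gho (V : Type) (e : E) : FreeAlgebra K (V ⊕ E ⊕ E) := FreeAlgebra.ι K (Sum.inr (Sum.inr e))

variable [Fintype V] [Fintype E] [DecidableEq V] [DecidableEq E]

/-- The defining relations of the Leavitt path algebra of a finite quiver.  The last one says that
the sum of the vertices is the identity element. -/
inductive LeavittRel (s r : E → V) :
    FreeAlgebra K (V ⊕ E ⊕ E) → FreeAlgebra K (V ⊕ E ⊕ E) → Prop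
  | vtx_vtx (v w : V) : LeavittRel s r (vtx K E v * vtx K E w) (if v = w then vtx K E v else 0)
  | src_arr (e : E) : LeavittRel s r (vtx K E (s e) * arr K V e) (arr K V e)
  | arr_rng (e : E) : LeavittRel s r (arr K V e * vtx K E (r e)) (arr K V e)
  | rng_gho (e : E) : LeavittRel s r (vtx K E (r e) * gho K V e) (gho K V e)
  | gho_src (e : E) : LeavittRel s r (gho K V e * vtx K E (s e)) (gho K V e)
  | ck1 (e f : E) : LeavittRel s r (gho K V e * arr K V f) (if e = f then vtx K E (r e) else 0)
  | ck2 (v : V) (h : ∃ e, s e = v) :
      LeavittRel s r (vtx K E v) (∑ e with s e = v, arr K V e * gho K V e)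
  | sum_vtx : LeavittRel s r (∑ v, vtx K E v) 1

/-- The Leavitt path algebra `L_K(Q)` of the finite quiver `Q = (V, E, s, r)`. -/
abbrev LPA (s r : E → V) : Type u := RingQuot (LeavittRel K s r)

end Pool.Agent.P.MP_40e4cd_al
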