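import Pool.Agent.P.MP_40e4cd_al.Defs

set_option autoImplicit false
set_option linter.unusedSectionVars false

namespace Pool.Agent.P.MP_40e4cd_al

open Finset

universe u

section universal

variable {K : Type u} [Field K] {V E : Type}
variable [Fintype V] [Fintype E] [DecidableEq V] [DecidableEq E]

/-- A Leavitt family in a ring. -/
structure IsFam {B : Type*} [Ring B] (s r : E → V) (P : V → B) (X Y : E → B) : Prop where
  vv : ∀ v w, P v * P w = if v = w then P v else 0
  sa : ∀ e, P (s e) * X e = X e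
  ar : ∀ e, X e * P (r e) = X e
  rg : ∀ e, P (r e) * Y e = Y e
  gs : ∀ e, Y e * P (s e) = Y e
  ck1 : ∀ e f, Y e * X f = if e = f then P (r e) else 0
  ck2 : ∀ v, (∃ e, s e = v) → P v = ∑ e with s e = v, X e * Y e
  one : ∑ v, P v = 1

variable (K) in
noncomputable def pv (s r : E → V) (v : V) : LPA K s r := RingQuot.mkAlgHom K _ (vtx K E v)
variable (K) in
noncomputable def pa (s r : E → V) (e : E) : LPA K s r := RingQuot.mkAlgHom K _ (arr K V e)
variable (K) in
noncomputable def pg (s r : E → V) (e : E) : LPA K s r := RingQuot.mkAlgHom K _ (gho K V e)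

variable (K) in
lemma isFam_LPA (s r : E → V) : IsFam s r (pv K s r) (pa K s r) (pg K s r) where
  vv v w := by
    have := RingQuot.mkAlgHom_rel K (LeavittRel.vtx_vtx (K := K) (s := s) (r := r) v w)
    rw [map_mul, apply_ite (RingQuot.mkAlgHom K (LeavittRel K s r)), map_zero] at this
    exact this
  sa e := by
    have := RingQuot.mkAlgHom_rel K (LeavittRel.src_arr (K := K) (s := s) (r := r) e)
    rwa [map_mul] at this
  ar e := by
    have := RingQuot.mkAlgHom_rel K (LeavittRel.arr_rng (K := K) (s := s) (r := r) e)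
    rwa [map_mul] at this
  rg e := by
    have := RingQuot.mkAlgHom_rel K (LeavittRel.rng_gho (K := K) (s := s) (r := r) e)
    rwa [map_mul] at this
  gs e := by
    have := RingQuot.mkAlgHom_rel K (LeavittRel.gho_src (K := K) (s := s) (r := r) e)
    rwa [map_mul] at this
  ck1 e f := by
    have := RingQuot.mkAlgHom_rel K (LeavittRel.ck1 (K := K) (s := s) (r := r) e f)
    rw [map_mul, apply_ite (RingQuot.mkAlgHom K (LeavittRel K s r)), map_zero] at this
    exact this
  ck2 v h := by
    have := RingQuot.mkAlgHom_rel K (LeavittRel.ck2 (K := K) (s := s) (r := r) v h)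
    rw [map_sum] at this
    simp only [map_mul] at this
    exact this
  one := by
    have := RingQuot.mkAlgHom_rel K (LeavittRel.sum_vtx (K := K) (s := s) (r := r))
    rwa [map_sum, map_one] at this

variable {B : Type*} [Ring B] [Algebra K B]

variable (K) in
noncomputable def lift {s r : E → V} {P : V → B} {X Y : E → B} (h : IsFam s r P X Y) :
    LPA K s r →ₐ[K] B :=
  RingQuot.liftAlgHom K ⟨FreeAlgebra.lift K (Sum.elim P (Sum.elim X Y)), by
    intro a b hab
    induction hab with
    | vtx_vtx v w =>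
      rw [apply_ite (FreeAlgebra.lift K (Sum.elim P (Sum.elim X Y)))]
      simpa [vtx] using h.vv v w
    | src_arr e => simpa [vtx, arr] using h.sa e
    | arr_rng e => simpa [vtx, arr] using h.ar e
    | rng_gho e => simpa [vtx, gho] using h.rg e
    | gho_src e => simpa [vtx, gho] using h.gs e
    | ck1 e f =>
      rw [apply_ite (FreeAlgebra.lift K (Sum.elim P (Sum.elim X Y)))]
      simpa [vtx, arr, gho] using h.ck1 e f
    | ck2 v hv => simpa [vtx, arr, gho] using h.ck2 v hv
    | sum_vtx => simpa [vtx] using h.one⟩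

lemma lift_pv {s r : E → V} {P : V → B} {X Y : E → B} (h : IsFam s r P X Y) (v : V) :
    lift K h (pv K s r v) = P v := by
  simp [lift, pv, vtx, RingQuot.liftAlgHom_mkAlgHom_apply]

lemma lift_pa {s r : E → V} {P : V → B} {X Y : E → B} (h : IsFam s r P X Y) (e : E) :
    lift K h (pa K s r e) = X e := by
  simp [lift, pa, arr, RingQuot.liftAlgHom_mkAlgHom_apply]

lemma lift_pg {s r : E → V} {P : V → B} {X Y : E → B} (h : IsFam s r P X Y) (e : E) :
    lift K h (pg K s r e) = Y e := by
  simp [lift, pg, gho, RingQuot.liftAlgHom_mkAlgHom_apply]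

lemma hom_ext {s r : E → V} {f g : LPA K s r →ₐ[K] B}
    (h1 : ∀ v, f (pv K s r v) = g (pv K s r v)) (h2 : ∀ e, f (pa K s r e) = g (pa K s r e))
    (h3 : ∀ e, f (pg K s r e) = g (pg K s r e)) : f = g := by
  apply RingQuot.ringQuot_ext'
  apply FreeAlgebra.hom_ext
  funext a
  rcases a with v | e | e
  · exact h1 v
  · exact h2 e
  · exact h3 e

lemma mem_of_gens {s r : E → V} (S : Subalgebra K (LPA K s r))
    (h1 : ∀ v, pv K s r v ∈ S) (h2 : ∀ e, pa K s r e ∈ S) (h3 : ∀ e, pg K s r e ∈ S)
    (a : LPA K s r) : a ∈ S := by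
  obtain ⟨a, rfl⟩ := RingQuot.mkAlgHom_surjective K _ a
  induction a using FreeAlgebra.induction with
  | grade0 c => rw [AlgHom.commutes]; exact S.algebraMap_mem c
  | grade1 a =>
    rcases a with v | e | e
    · exact h1 v
    · exact h2 e
    · exact h3 e
  | mul a b ha hb => rw [map_mul]; exact S.mul_mem ha hb
  | add a b ha hb => rw [map_add]; exact S.add_mem ha hb

end universal

section toeplitz

variable {V S : Type} [Fintype V] [DecidableEq V] [Fintype S] [DecidableEq S]
variable {B : Type*} [Ring B]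

/-- A Toeplitz family: a one-sided inverse pair whose defect is split into orthogonal
idempotents. -/
structure IsToep (x y : B) (e : S → B) : Prop where
  yx : y * x = 1
  orth : ∀ i j, e i * e j = if i = j then e i else 0
  sum : ∑ i, e i = 1 - x * y

lemma IsToep.e_mul_x {x y : B} {e : S → B} (h : IsToep x y e) (i : S) : e i * x = 0 := by
  have h1 : e i * ∑ j, e j = e i := by simp [mul_sum, h.orth]
  rw [← h1, h.sum, mul_assoc, sub_mul, mul_assoc, h.yx]; simp

lemma IsToep.y_mul_e {x y : B} {e : S → B} (h : IsToep x y e) (i : S) : y * e i = 0 := by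
  have h1 : (∑ j, e j) * e i = e i := by simp [sum_mul, h.orth]
  rw [← h1, h.sum, ← mul_assoc, mul_sub, ← mul_assoc, h.yx]; simp

/-- One step of the recursion for the vertex idempotents. -/
def Phi (f : V → V) (ι : S → V) (x y : B) (e : S → B) (p : V → B) (b : V) : B :=
  (∑ i with ι i = b, e i) + x * (∑ a with f a = b, p a) * y

lemma sum_Phi {f : V → V} {ι : S → V} {x y : B} {e : S → B} (h : IsToep x y e) {p : V → B}
    (hp : ∑ a, p a = 1) : ∑ b, Phi f ι x y e p b = 1 := by
  unfold Phi
  rw [sum_add_distrib, ← sum_mul, ← mul_sum, sum_fiberwise, sum_fiberwise, hp, h.sum]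
  simp

lemma fiber_orth {T : Type} [Fintype T] [DecidableEq T] (g : T → V) {p : T → B}
    (hp : ∀ a c, p a * p c = if a = c then p a else 0) (b c : V) :
    (∑ a with g a = b, p a) * (∑ a with g a = c, p a)
      = if b = c then ∑ a with g a = b, p a else 0 := by
  rw [sum_mul_sum]
  simp only [hp, sum_ite_eq, mem_filter, mem_univ, true_and]
  split_ifs with hbc
  · subst hbc
    exact sum_congr rfl fun a ha => if_pos (mem_filter.1 ha).2
  · exact sum_eq_zero fun a ha => if_neg fun h => hbc ((mem_filter.1 ha).2.symm.trans h)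

lemma orth_Phi {f : V → V} {ι : S → V} {x y : B} {e : S → B} (h : IsToep x y e) {p : V → B}
    (hp : ∀ a c, p a * p c = if a = c then p a else 0) (b c : V) :
    Phi f ι x y e p b * Phi f ι x y e p c = if b = c then Phi f ι x y e p b else 0 := by
  unfold Phi
  have h1 := fiber_orth ι h.orth b c
  have h2 := fiber_orth f hp b c
  have h3 : (∑ i with ι i = b, e i) * x = 0 := by simp [sum_mul, h.e_mul_x]
  have h4 : y * (∑ i with ι i = c, e i) = 0 := by simp [mul_sum, h.y_mul_e]
  set Eb := ∑ i with ι i = b, e i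
  set Ec := ∑ i with ι i = c, e i
  set Pb := ∑ a with f a = b, p a
  set Pc := ∑ a with f a = c, p a
  have : (Eb + x * Pb * y) * (Ec + x * Pc * y)
      = Eb * Ec + (Eb * x) * Pc * y + x * Pb * (y * Ec) + x * (Pb * (y * x) * Pc) * y := by
    noncomm_ring
  rw [this, h3, h4, h.yx, mul_one, h1, h2]
  split_ifs <;> simp

lemma Phi_iter_sub (f : V → V) (ι : S → V) (x y : B) (e : S → B) (p q : V → B) (D : ℕ) (b : V) :
    (Phi f ι x y e)^[D] p b - (Phi f ι x y e)^[D] q b
      = x ^ D * (∑ a with f^[D] a = b, (p a - q a)) * y ^ D := by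
  induction D generalizing b with
  | zero => simp [filter_eq']
  | succ D ih =>
    rw [Function.iterate_succ_apply', Function.iterate_succ_apply']
    set p' := (Phi f ι x y e)^[D] p
    set q' := (Phi f ι x y e)^[D] q
    have h1 : Phi f ι x y e p' b - Phi f ι x y e q' b
        = x * (∑ c with f c = b, (p' c - q' c)) * y := by
      unfold Phi
      rw [sum_sub_distrib]; noncomm_ring
    rw [h1]
    simp only [ih]
    rw [← sum_mul, ← mul_sum]
    have h2 : ∑ c with f c = b, ∑ a with f^[D] a = c, (p a - q a)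
        = ∑ a with f^[D + 1] a = b, (p a - q a) := by
      simp only [sum_filter]
      have : ∀ c, (if f c = b then ∑ a, if f^[D] a = c then p a - q a else 0 else 0)
          = ∑ a, if f^[D] a = c then (if f c = b then p a - q a else 0) else 0 := by
        intro c; split_ifs <;> simp
      simp only [this]
      rw [sum_comm]
      simp [Function.iterate_succ_apply']
    rw [h2, pow_succ' x, pow_succ y]; noncomm_ring

lemma Phi_iter_eq {f : V → V} {ρ : V} {D : ℕ} (hD : ∀ a, f^[D] a = ρ) (ι : S → V) (x y : B)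
    (e : S → B) {p q : V → B} (hp : ∑ a, p a = 1) (hq : ∑ a, q a = 1) :
    (Phi f ι x y e)^[D] p = (Phi f ι x y e)^[D] q := by
  funext b
  rw [← sub_eq_zero, Phi_iter_sub]
  simp only [hD]
  by_cases h : ρ = b
  · simp [h, sum_sub_distrib, hp, hq]
  · simp [h]

/-- The vertex idempotents built from a Toeplitz family. -/
def vert (f : V → V) (ρ : V) (D : ℕ) (ι : S → V) (x y : B) (e : S → B) : V → B :=
  (Phi f ι x y e)^[D] fun a => if a = ρ then 1 else 0

lemma vert_prop (f : V → V) (ρ : V) (D : ℕ) (ι : S → V) {x y : B} {e : S → B}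
    (h : IsToep x y e) :
    (∀ a c, vert f ρ D ι x y e a * vert f ρ D ι x y e c
      = if a = c then vert f ρ D ι x y e a else 0) ∧ ∑ a, vert f ρ D ι x y e a = 1 := by
  unfold vert
  induction D with
  | zero =>
    refine ⟨fun a c => ?_, by simp⟩
    simp only [Function.iterate_zero, id]
    by_cases h1 : a = ρ <;> by_cases h2 : c = ρ
    · simp [h1, h2]
    · simp [h1, h2, Ne.symm h2]
    · simp [h1, h2]
    · simp [h1, h2]
  | succ D ih =>
    rw [Function.iterate_succ_apply']
    exact ⟨orth_Phi h ih.1, sum_Phi h ih.2⟩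

lemma vert_fixed {f : V → V} {ρ : V} {D : ℕ} (hD : ∀ a, f^[D] a = ρ) (ι : S → V) {x y : B}
    {e : S → B} (h : IsToep x y e) :
    Phi f ι x y e (vert f ρ D ι x y e) = vert f ρ D ι x y e := by
  unfold vert
  rw [← Function.iterate_succ_apply' (Phi f ι x y e), Function.iterate_succ_apply]
  exact Phi_iter_eq hD ι x y e (sum_Phi h (by simp)) (by simp)

lemma eq_vert {f : V → V} {ρ : V} {D : ℕ} (hD : ∀ a, f^[D] a = ρ) (ι : S → V) {x y : B}
    {e : S → B} {p : V → B} (hp : ∑ a, p a = 1) (hfix : Phi f ι x y e p = p) :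
    p = vert f ρ D ι x y e := by
  unfold vert
  rw [← Phi_iter_eq hD ι x y e hp (by simp), Function.iterate_fixed hfix]

/-- `ι` enumerates the sinks of the quiver with one arrow `f a → a` for every vertex `a`. -/
structure IsSinks (f : V → V) (ι : S → V) : Prop where
  inj : Function.Injective ι
  mem : ∀ b, (∃ i, ι i = b) ↔ ¬ ∃ a, f a = b

lemma isFam_vert {f : V → V} {ρ : V} {D : ℕ} (hD : ∀ a, f^[D] a = ρ) {ι : S → V}
    (hι : IsSinks f ι) {x y : B} {e : S → B} (h : IsToep x y e) :
    IsFam f id (vert f ρ D ι x y e) (fun a => x * vert f ρ D ι x y e a)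
      (fun a => vert f ρ D ι x y e a * y) := by
  obtain ⟨ho, hs⟩ := vert_prop f ρ D ι h
  have hfix := vert_fixed hD ι h
  set p := vert f ρ D ι x y e
  have hid : ∀ a, p a * p a = p a := fun a => by simpa using ho a a
  have hfa : ∀ b, (∃ a, f a = b) → p b = x * (∑ c with f c = b, p c) * y := by
    intro b hb
    have h1 : ∑ i with ι i = b, e i = 0 :=
      sum_eq_zero fun i hi => absurd hb ((hι.mem b).1 ⟨i, (mem_filter.1 hi).2⟩)
    have h2 := congrFun hfix b
    unfold Phi at h2
    rw [h1, zero_add] at h2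
    exact h2.symm
  have hl : ∀ a, (∑ c with f c = f a, p c) * p a = p a := by
    intro a; simp [sum_mul, ho]
  have hr : ∀ a, p a * (∑ c with f c = f a, p c) = p a := by
    intro a; simp [mul_sum, ho]
  refine ⟨ho, fun a => ?_, fun a => ?_, fun a => ?_, fun a => ?_, fun a c => ?_, fun b hb => ?_, hs⟩
  · rw [hfa (f a) ⟨a, rfl⟩]
    calc x * (∑ c with f c = f a, p c) * y * (x * p a)
        = x * ((∑ c with f c = f a, p c) * (y * x) * p a) := by noncomm_ring
      _ = x * p a := by rw [h.yx, mul_one, hl]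
  · simp only [id]; rw [mul_assoc, hid]
  · simp only [id]; rw [← mul_assoc, hid]
  · rw [hfa (f a) ⟨a, rfl⟩]
    calc p a * y * (x * (∑ c with f c = f a, p c) * y)
        = (p a * (y * x) * (∑ c with f c = f a, p c)) * y := by noncomm_ring
      _ = p a * y := by rw [h.yx, mul_one, hr]
  · calc p a * y * (x * p c) = p a * (y * x) * p c := by noncomm_ring
      _ = _ := by rw [h.yx, mul_one, ho]; rfl
  · rw [hfa b hb, mul_sum, sum_mul]
    refine sum_congr rfl fun c _ => ?_
    calc x * p c * y = x * (p c * p c) * y := by rw [hid]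
      _ = _ := by noncomm_ring

lemma vert_sink {f : V → V} {ρ : V} {D : ℕ} (hD : ∀ a, f^[D] a = ρ) {ι : S → V}
    (hι : IsSinks f ι) {x y : B} {e : S → B} (h : IsToep x y e) (i : S) :
    vert f ρ D ι x y e (ι i) = e i := by
  rw [← vert_fixed hD ι h]
  unfold Phi
  have h1 : (univ.filter fun a => f a = ι i) = ∅ :=
    filter_eq_empty_iff.2 fun a _ ha => (hι.mem (ι i)).1 ⟨i, rfl⟩ ⟨a, ha⟩
  have h2 : (univ.filter fun j => ι j = ι i) = {i} := by
    ext j; simp [hι.inj.eq_iff]
  rw [h1, h2]; simp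

/-- A Leavitt family for such a quiver gives a Toeplitz family. -/
lemma fam_toep {f : V → V} {ι : S → V} (hι : IsSinks f ι) {P X Y : V → B}
    (h : IsFam f id P X Y) :
    (∀ a, (∑ c, X c) * P a = X a) ∧ (∀ a, P a * (∑ c, Y c) = Y a) ∧
      IsToep (∑ c, X c) (∑ c, Y c) (fun i => P (ι i)) ∧
      Phi f ι (∑ c, X c) (∑ c, Y c) (fun i => P (ι i)) P = P := by
  have h1 : ∀ c a, X c * P a = if c = a then X c else 0 := by
    intro c a
    rw [← h.ar c, mul_assoc, h.vv]
    simp only [id]
    split_ifs <;> simp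
  have h2 : ∀ a c, P a * Y c = if a = c then Y c else 0 := by
    intro a c
    rw [← h.rg c, ← mul_assoc, h.vv]
    simp only [id]
    split_ifs with hac
    · rw [hac]
    · simp
  have hx : ∀ a, (∑ c, X c) * P a = X a := by intro a; simp [sum_mul, h1]
  have hy : ∀ a, P a * (∑ c, Y c) = Y a := by intro a; simp [mul_sum, h2]
  have hid : ∀ a, P a * P a = P a := fun a => by simpa using h.vv a a
  have hfix : Phi f ι (∑ c, X c) (∑ c, Y c) (fun i => P (ι i)) P = P := by
    funext b
    unfold Phi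
    have h3 : (∑ c, X c) * (∑ a with f a = b, P a) * (∑ c, Y c) = ∑ a with f a = b, X a * Y a := by
      rw [mul_sum (s := univ.filter fun a => f a = b), sum_mul (s := univ.filter fun a => f a = b)]
      refine sum_congr rfl fun a _ => ?_
      rw [← hx a, ← hy a]
      calc (∑ c, X c) * P a * (∑ c, Y c) = (∑ c, X c) * (P a * P a) * (∑ c, Y c) := by rw [hid]
        _ = _ := by noncomm_ring
    rw [h3]
    by_cases hb : ∃ a, f a = b
    · have h4 : ∑ i with ι i = b, P (ι i) = 0 :=
        sum_eq_zero fun i hi => absurd hb ((hι.mem b).1 ⟨i, (mem_filter.1 hi).2⟩)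
      rw [h4, zero_add, ← h.ck2 b hb]
    · obtain ⟨i, rfl⟩ := (hι.mem b).2 hb
      have h4 : (univ.filter fun a => f a = ι i) = ∅ :=
        filter_eq_empty_iff.2 fun a _ ha => hb ⟨a, ha⟩
      have h5 : (univ.filter fun j => ι j = ι i) = {i} := by
        ext j; simp [hι.inj.eq_iff]
      rw [h4, h5]; simp
  refine ⟨hx, hy, ⟨?_, fun i j => ?_, ?_⟩, hfix⟩
  · rw [sum_mul_sum]; simp [h.ck1, h.one]
  · rw [h.vv]; simp [hι.inj.eq_iff]
  · have h6 : ∑ b, Phi f ι (∑ c, X c) (∑ c, Y c) (fun i => P (ι i)) P b = 1 := by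
      rw [hfix, h.one]
    unfold Phi at h6
    rw [sum_add_distrib, ← sum_mul, ← mul_sum, sum_fiberwise, sum_fiberwise, h.one, mul_one] at h6
    rw [← h6]; simp

lemma map_Phi {C F : Type*} [Ring C] [FunLike F B C] [RingHomClass F B C] (φ : F) (f : V → V)
    (ι : S → V) (x y : B) (e : S → B) (p : V → B) (b : V) :
    φ (Phi f ι x y e p b) = Phi f ι (φ x) (φ y) (fun i => φ (e i)) (fun a => φ (p a)) b := by
  simp [Phi, map_sum]

variable {K : Type u} [Field K]

variable (K) in
/-- Sum of all arrows. -/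
noncomputable def xx (f : V → V) : LPA K f id := ∑ c, pa K f id c
variable (K) in
/-- Sum of all ghost arrows. -/
noncomputable def yy (f : V → V) : LPA K f id := ∑ c, pg K f id c

lemma toep_LPA {f : V → V} {ι : S → V} (hι : IsSinks f ι) :
    IsToep (xx K f) (yy K f) (fun i => pv K f id (ι i)) :=
  (fam_toep hι (isFam_LPA K f id)).2.2.1

variable [Algebra K B]

lemma exists_hom {f : V → V} {ρ : V} {D : ℕ} (hD : ∀ a, f^[D] a = ρ) {ι : S → V}
    (hι : IsSinks f ι) {x y : B} {e : S → B} (h : IsToep x y e) :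
    ∃ φ : LPA K f id →ₐ[K] B, φ (xx K f) = x ∧ φ (yy K f) = y ∧
      ∀ i, φ (pv K f id (ι i)) = e i := by
  refine ⟨lift K (isFam_vert hD hι h), ?_, ?_, fun i => ?_⟩
  · simp only [xx, map_sum, lift_pa]
    rw [← mul_sum, (vert_prop f ρ D ι h).2, mul_one]
  · simp only [yy, map_sum, lift_pg]
    rw [← sum_mul, (vert_prop f ρ D ι h).2, one_mul]
  · rw [lift_pv, vert_sink hD hι h]

lemma hom_ext' {f : V → V} {ρ : V} {D : ℕ} (hD : ∀ a, f^[D] a = ρ) {ι : S → V}
    (hι : IsSinks f ι) {φ ψ : LPA K f id →ₐ[K] B} (hx : φ (xx K f) = ψ (xx K f))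
    (hy : φ (yy K f) = ψ (yy K f)) (he : ∀ i, φ (pv K f id (ι i)) = ψ (pv K f id (ι i))) :
    φ = ψ := by
  obtain ⟨h1, h2, -, h4⟩ := fam_toep hι (isFam_LPA K f id)
  have key : ∀ χ : LPA K f id →ₐ[K] B, (fun a => χ (pv K f id a))
      = vert f ρ D ι (χ (xx K f)) (χ (yy K f)) (fun i => χ (pv K f id (ι i))) := by
    intro χ
    refine eq_vert hD ι ?_ ?_
    · rw [← map_sum, (isFam_LPA K f id).one, map_one]
    · funext b
      rw [← map_Phi χ]
      exact congrArg χ (congrFun h4 b)
  have hv : ∀ a, φ (pv K f id a) = ψ (pv K f id a) := by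
    intro a
    have e1 := congrFun (key φ) a
    have e2 := congrFun (key ψ) a
    rw [e1, e2, hx, hy, funext he]
  refine hom_ext hv (fun a => ?_) (fun a => ?_)
  · rw [← h1 a, map_mul, map_mul, hv]; exact congrArg (· * _) hx
  · rw [← h2 a, map_mul, map_mul, hv]; exact congrArg (_ * ·) hy

theorem iso_of_sinks {V' : Type} [Fintype V'] [DecidableEq V'] {f : V → V} {ρ : V} {D : ℕ}
    (hD : ∀ a, f^[D] a = ρ) {ι : S → V} (hι : IsSinks f ι) {f' : V' → V'} {ρ' : V'} {D' : ℕ}
    (hD' : ∀ a, f'^[D'] a = ρ') {ι' : S → V'} (hι' : IsSinks f' ι') :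
    Nonempty (LPA K f id ≃ₐ[K] LPA K f' id) := by
  obtain ⟨φ, h1, h2, h3⟩ := exists_hom (K := K) hD hι (toep_LPA (K := K) hι')
  obtain ⟨ψ, g1, g2, g3⟩ := exists_hom (K := K) hD' hι' (toep_LPA (K := K) hι)
  refine ⟨AlgEquiv.ofAlgHom φ ψ ?_ ?_⟩
  · refine hom_ext' hD' hι' ?_ ?_ fun i => ?_
    · simp [g1, h1]
    · simp [g2, h2]
    · simp [g3, h3]
  · refine hom_ext' hD hι ?_ ?_ fun i => ?_
    · simp [g1, h1]
    · simp [g2, h2]
    · simp [g3, h3]

lemma mem_adjoin_xy {f : V → V} {ρ : V} {D : ℕ} (hD : ∀ a, f^[D] a = ρ) {ι : Unit → V}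
    (hι : IsSinks f ι) (a : LPA K f id) : a ∈ Algebra.adjoin K {xx K f, yy K f} := by
  obtain ⟨h1, h2, h3, h4⟩ := fam_toep hι (isFam_LPA K f id)
  set T := Algebra.adjoin K {xx K f, yy K f}
  have hx : xx K f ∈ T := Algebra.subset_adjoin (by simp)
  have hy : yy K f ∈ T := Algebra.subset_adjoin (by simp)
  have he : ∀ i, pv K f id (ι i) ∈ T := by
    intro i
    have := h3.sum
    rw [Fintype.sum_unique] at this
    have e : i = default := rfl
    rw [e, this]
    exact T.sub_mem T.one_mem (T.mul_mem hx hy)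
  have hv : ∀ b, pv K f id b ∈ T := by
    have key := eq_vert hD ι (isFam_LPA K f id).one h4
    rw [key]
    unfold vert
    generalize D = n
    induction n with
    | zero => intro b; simp only [Function.iterate_zero, id]; split_ifs; exacts [T.one_mem, T.zero_mem]
    | succ n ih =>
      intro b
      rw [Function.iterate_succ_apply']
      unfold Phi
      exact T.add_mem (T.sum_mem fun i _ => he i)
        (T.mul_mem (T.mul_mem hx (T.sum_mem fun c _ => ih c)) hy)
  refine mem_of_gens T hv (fun c => ?_) (fun c => ?_) a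
  · rw [← h1 c]; exact T.mul_mem hx (hv c)
  · rw [← h2 c]; exact T.mul_mem (hv c) hy

end toeplitz

section jacobson

variable {K : Type u} [Field K] {A : Type*} [Ring A] [Algebra K A]

lemma mem_span_xy {x y : A} (h : y * x = 1) {a : A} (ha : a ∈ Algebra.adjoin K {x, y}) :
    a ∈ Submodule.span K (Set.range fun p : ℕ × ℕ => x ^ p.1 * y ^ p.2) := by
  set M := Submodule.span K (Set.range fun p : ℕ × ℕ => x ^ p.1 * y ^ p.2)
  have hmem : ∀ i j : ℕ, x ^ i * y ^ j ∈ M := fun i j => Submodule.subset_span ⟨(i, j), rfl⟩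
  have key : ∀ m ∈ M, a * m ∈ M := by
    induction ha using Algebra.adjoin_induction with
    | mem z hz =>
      intro m hm
      induction hm using Submodule.span_induction with
      | mem m hm =>
        obtain ⟨⟨i, j⟩, rfl⟩ := hm
        rcases hz with rfl | rfl
        · simp only; rw [← mul_assoc, ← pow_succ']; exact hmem _ _
        · rcases i with _ | i
          · simp only [pow_zero, one_mul]; rw [← pow_succ']; simpa using hmem 0 (j + 1)
          · simp only; rw [pow_succ' x, ← mul_assoc, ← mul_assoc, h, one_mul]; exact hmem _ _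
      | zero => simp
      | add m m' _ _ h1 h2 => rw [mul_add]; exact M.add_mem h1 h2
      | smul c m _ h1 => rw [mul_smul_comm]; exact M.smul_mem c h1
    | algebraMap c => intro m hm; rw [← Algebra.smul_def]; exact M.smul_mem c hm
    | add z w _ _ h1 h2 => intro m hm; rw [add_mul]; exact M.add_mem (h1 m hm) (h2 m hm)
    | mul z w _ _ h1 h2 => intro m hm; rw [mul_assoc]; exact h1 _ (h2 m hm)
  simpa using key _ (hmem 0 0)

lemma pow_yx {x y : A} (h : y * x = 1) (n : ℕ) : y ^ n * x ^ n = 1 := by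
  induction n with
  | zero => simp
  | succ n ih => rw [pow_succ y, pow_succ' x, mul_assoc, ← mul_assoc y, h, one_mul, ih]

lemma sandwich {x y : A} (h : y * x = 1) (k i : ℕ) :
    (1 - x * y) * (y ^ k * x ^ i) * (1 - x * y) = if i = k then 1 - x * y else 0 := by
  have hqx : (1 - x * y) * x = 0 := by rw [sub_mul, mul_assoc, h]; simp
  have hyq : y * (1 - x * y) = 0 := by rw [mul_sub, ← mul_assoc, h]; simp
  rcases lt_trichotomy i k with hik | hik | hik
  · obtain ⟨d, rfl⟩ := Nat.exists_eq_add_of_lt hik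
    rw [if_neg hik.ne, show i + d + 1 = (d + 1) + i by ring, pow_add, mul_assoc (y ^ (d + 1)),
      pow_yx h, mul_one, pow_succ, mul_assoc, mul_assoc, hyq]
    simp
  · subst hik
    rw [if_pos rfl, pow_yx h, mul_one, mul_sub, mul_one, ← mul_assoc, hqx]; simp
  · obtain ⟨d, rfl⟩ := Nat.exists_eq_add_of_lt hik
    rw [if_neg hik.ne', add_assoc, pow_add, ← mul_assoc (y ^ k), pow_yx h, one_mul, pow_succ',
      ← mul_assoc, hqx]
    simp

lemma right_kill {x y : A} (h : y * x = 1) {j l : ℕ} (hj : l < j) :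
    y ^ j * x ^ l * (1 - x * y) = 0 := by
  have hyq : y * (1 - x * y) = 0 := by rw [mul_sub, ← mul_assoc, h]; simp
  obtain ⟨d, rfl⟩ := Nat.exists_eq_add_of_lt hj
  rw [show l + d + 1 = (d + 1) + l by ring, pow_add, mul_assoc (y ^ (d + 1)), pow_yx h, mul_one,
    pow_succ, mul_assoc, hyq, mul_zero]

/-- In an algebra generated by `x, y` with `y x = 1`, a homomorphism that kills a nonzero
element kills `1 - x y`. -/
lemma kills_defect {B : Type*} [Ring B] [Algebra K B] {x y : A} (h : y * x = 1) {a : A}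
    (ha : a ∈ Algebra.adjoin K {x, y}) (ha0 : a ≠ 0) (π : A →ₐ[K] B) (hπ : π a = 0) :
    π (1 - x * y) = 0 := by
  classical
  obtain ⟨c, hc⟩ := Finsupp.mem_span_range_iff_exists_finsupp.1 (mem_span_xy h ha)
  have hne : c.support.Nonempty := by
    rw [Finsupp.support_nonempty_iff]
    rintro rfl
    exact ha0 (by simpa using hc.symm)
  obtain ⟨⟨i0, j0⟩, hmem, hmin⟩ := c.support.exists_min_image (fun p => p.2) hne
  have key : (1 - x * y) * y ^ i0 * a * x ^ j0 * (1 - x * y) = c (i0, j0) • (1 - x * y) := by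
    rw [← hc, Finsupp.sum, mul_sum, sum_mul, sum_mul, sum_eq_single_of_mem (i0, j0) hmem]
    · simp only [mul_smul_comm, smul_mul_assoc]
      congr 1
      calc (1 - x * y) * y ^ i0 * (x ^ i0 * y ^ j0) * x ^ j0 * (1 - x * y)
          = (1 - x * y) * (y ^ i0 * x ^ i0 * (y ^ j0 * x ^ j0)) * (1 - x * y) := by
            simp only [mul_assoc]
        _ = _ := by rw [pow_yx h j0, mul_one, sandwich h, if_pos rfl]
    · rintro ⟨i, j⟩ hij hne'
      simp only [mul_smul_comm, smul_mul_assoc]
      have hj : j0 ≤ j := hmin _ hij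
      rcases hj.lt_or_eq with hj | hj
      · have : (1 - x * y) * y ^ i0 * (x ^ i * y ^ j) * x ^ j0 * (1 - x * y)
            = (1 - x * y) * y ^ i0 * x ^ i * (y ^ j * x ^ j0 * (1 - x * y)) := by
          simp only [mul_assoc]
        rw [this, right_kill h hj]; simp
      · subst hj
        have hi : i ≠ i0 := fun hi => hne' (by rw [hi])
        have : (1 - x * y) * y ^ i0 * (x ^ i * y ^ j0) * x ^ j0 * (1 - x * y)
            = (1 - x * y) * (y ^ i0 * x ^ i * (y ^ j0 * x ^ j0)) * (1 - x * y) := by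
          simp only [mul_assoc]
        rw [this, pow_yx h j0, mul_one, sandwich h, if_neg hi, smul_zero]
  have h2 := congrArg π key
  rw [map_mul, map_mul, map_mul, hπ, map_smul] at h2
  simp only [mul_zero, zero_mul] at h2
  have hc0 : c (i0, j0) ≠ 0 := Finsupp.mem_support_iff.1 hmem
  exact (smul_eq_zero_iff_right hc0).1 h2.symm

variable (K) in
/-- Forward shift. -/
def shiftX : Module.End K (ℕ → K) where
  toFun g n := if n = 0 then 0 else g (n - 1)
  map_add' g g' := by funext n; by_cases h : n = 0 <;> simp [h]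
  map_smul' c g := by funext n; by_cases h : n = 0 <;> simp [h]

variable (K) in
/-- Backward shift. -/
def shiftY : Module.End K (ℕ → K) where
  toFun g n := g (n + 1)
  map_add' _ _ := rfl
  map_smul' _ _ := rfl

lemma shift_yx : shiftY K * shiftX K = 1 := by
  ext g n; simp [shiftX, shiftY]

lemma shift_xy : 1 - shiftX K * shiftY K ≠ 0 := by
  intro h
  have := congrFun (LinearMap.congr_fun h fun _ => 1) 0
  simp [shiftX, shiftY] at this

lemma toep_shift {S : Type} [Fintype S] [DecidableEq S] (i0 : S) :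
    IsToep (shiftX K) (shiftY K) fun i => if i = i0 then 1 - shiftX K * shiftY K else 0 where
  yx := shift_yx
  orth i j := by
    have := sandwich (shift_yx (K := K)) 0 0
    simp only [pow_zero, mul_one, if_true] at this
    by_cases h1 : i = i0 <;> by_cases h2 : j = i0
    · simp [h1, h2, this]
    · simp [h1, h2, Ne.symm h2]
    · simp [h1, h2]
    · simp [h1, h2]
  sum := by simp

end jacobson

theorem not_iso {K : Type u} [Field K] {V V' S : Type} [Fintype V] [DecidableEq V] [Fintype V']
    [DecidableEq V'] [Fintype S] [DecidableEq S] {f : V → V} {ρ : V} {D : ℕ}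
    (hD : ∀ a, f^[D] a = ρ) {ι : Unit → V} (hι : IsSinks f ι) {f' : V' → V'} {ρ' : V'} {D' : ℕ}
    (hD' : ∀ a, f'^[D'] a = ρ') {ι' : S → V'} (hι' : IsSinks f' ι') (i j : S) (hij : i ≠ j) :
    IsEmpty (LPA K f id ≃ₐ[K] LPA K f' id) := by
  refine ⟨fun φ => ?_⟩
  obtain ⟨π, p1, p2, p3⟩ := exists_hom (K := K) hD' hι' (toep_shift (K := K) i)
  obtain ⟨π', -, -, q3⟩ := exists_hom (K := K) hD' hι' (toep_shift (K := K) j)
  have hyx := (toep_LPA (K := K) hι).yx
  have hgen := mem_adjoin_xy (K := K) hD hι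
  set x := xx K f
  set y := yy K f
  have hw : φ.symm (pv K f' id (ι' j)) ≠ 0 := by
    intro h0
    have h1 : pv K f' id (ι' j) = 0 := by simpa using h0
    have h2 := q3 j
    rw [h1, map_zero, if_pos rfl] at h2
    exact shift_xy h2.symm
  let χ : LPA K f id →ₐ[K] Module.End K (ℕ → K) := π.comp φ.toAlgHom
  have hχ : ∀ a, χ (φ.symm a) = π a := fun a => by simp [χ]
  have h3 : χ (1 - x * y) = 0 := by
    refine kills_defect hyx (hgen _) hw χ ?_
    rw [hχ, p3, if_neg hij.symm]
  have hxy : χ x * χ y = 1 := by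
    rw [map_sub, map_one, map_mul, sub_eq_zero] at h3
    exact h3.symm
  have hyx' : χ y * χ x = 1 := by rw [← map_mul, hyx, map_one]
  have hc : Commute (χ x) (χ y) := hxy.trans hyx'.symm
  have hmem : ∀ a, χ a ∈ Algebra.adjoin K {χ x, χ y} := by
    intro a
    have := Subalgebra.mem_map.2 ⟨a, hgen a, (rfl : χ a = χ a)⟩
    rwa [AlgHom.map_adjoin, Set.image_pair] at this
  have hcomm : ∀ a b, Commute (χ a) (χ b) := by
    intro a b
    refine Algebra.commute_of_mem_adjoin_of_forall_mem_commute (hmem b) fun z hz => ?_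
    refine (Algebra.commute_of_mem_adjoin_of_forall_mem_commute (hmem a) fun w hw => ?_).symm
    rcases hz with rfl | rfl <;> rcases hw with rfl | rfl
    exacts [Commute.refl _, hc, hc.symm, Commute.refl _]
  have h4 := hcomm (φ.symm (xx K f')) (φ.symm (yy K f'))
  rw [hχ, hχ, p1, p2] at h4
  exact shift_xy (K := K) (by rw [h4.eq, shift_yx, sub_self])

end Pool.Agent.P.MP_40e4cd_al
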